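import Mathlib

/-!
# Project RM: definitions

`PAct` = proper simplicial actions; `Inter` = systems of intersection numbers of the cubes of the complex with the
cubes `(g, s)` (`g` in the group `A`, `s` a clique of commuting elements `e w`).
-/

set_option autoImplicit false

open Finset Pointwise

namespace Pool.Agent.H65.RM

/-- a proper simplicial action of `A` on the simplicial complex `K` with the subcomplex `B`: the group permutes
the simplices, and for a vertex `u` of `K` only finitely many elements of the group move `u` to `w` -/
structure PAct (A : Type) [Group A] {U : Type} [DecidableEq U] [MulAction A U]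
    (K B : Set (Finset U)) : Prop where
  K_mem : ∀ (g : A) (s : Finset U), s ∈ K → g • s ∈ K
  B_mem : ∀ (g : A) (s : Finset U), s ∈ B → g • s ∈ B
  proper : ∀ u w : U, {u} ∈ K → {g : A | g • u = w}.Finite

/-- Intersection numbers of the cubes `(g, s)`: `s` is a clique of the graph `O`, the elements `e w`, `w ∈ s`,
commute, the vertices of the cube are the products of `g` with the elements `e w`. -/
structure Inter {A W : Type} [Group A] [DecidableEq W] (O : SimpleGraph W) (e : W → A) (n : ℕ)
    (H : A → Finset W → A → Finset W → ZMod 2) : Prop where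
  rel : ∀ (g : A) (s : Finset W) (g' : A) (s' : Finset W), O.IsClique (s : Set W) →
    O.IsClique (s' : Set W) →
    ∑ w ∈ s, (H g (s.erase w) g' s' + H (g * e w) (s.erase w) g' s') +
      ∑ w ∈ s', (H g s g' (s'.erase w) + H g s (g' * e w) (s'.erase w)) =
      H g s g' s' + H g' s' g s
  top : ∀ (g : A) (s : Finset W) (g' : A) (s' : Finset W), O.IsClique (s : Set W) →
    O.IsClique (s' : Set W) → n < s.card + s'.card → H g s g' s' = 0
  one : H 1 ∅ 1 ∅ = 1
  fin : ∃ E : Finset A, ∀ (g : A) (s : Finset W) (g' : A) (s' : Finset W),
    O.IsClique (s : Set W) → O.IsClique (s' : Set W) → H g s g' s' ≠ 0 → g⁻¹ * g' ∈ E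

end Pool.Agent.H65.RM
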