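import Pool.Agent.H37.TM.MDefs

/-!
# Project RM: a function which is injective on the simplices

The complex is connected (it is acyclic) and locally finite, so its set of vertices is countable.
-/

set_option autoImplicit false

open Finset

namespace Pool.Agent.H65.RM

open Pool.Agent.H37.TM

theorem exists_height {U : Type} [DecidableEq U] {K B : Set (Finset U)} {n : ℕ}
    (hM : Pool.Agent.H37.TM.Mfd K B n) (hK : Pool.Agent.H37.TM.Acyc K) :
    ∃ ht : U → ℕ, ∀ s ∈ K, Set.InjOn ht (s : Set U) := by
  classical
  rcases Set.eq_empty_or_nonempty K with rfl | ⟨s0, hs0⟩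
  · exact ⟨fun _ => 0, fun s hs => (Set.notMem_empty s hs).elim⟩
  obtain ⟨u0, hu0⟩ := hM.ne s0 hs0
  have hu : ({u0} : Finset U) ∈ K :=
    hM.down s0 hs0 _ (Finset.singleton_subset_iff.mpr hu0) (Finset.singleton_nonempty u0)
  -- the neighbours of a vertex
  have hE : ∀ v : U, {w : U | ({v, w} : Finset U) ∈ K}.Finite := by
    intro v
    by_cases hv : ({v} : Finset U) ∈ K
    · have hF := hM.locfin _ hv
      refine (hF.biUnion (t := fun t : Finset U => (t : Set U))
        (fun t _ => t.finite_toSet)).subset ?_
      intro w hw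
      simp only [Set.mem_iUnion]
      exact ⟨{v, w}, ⟨hw, by simp⟩, by simp⟩
    · refine Set.Finite.subset Set.finite_empty ?_
      intro w hw
      exact hv (hM.down _ hw _ (by simp) (Finset.singleton_nonempty v))
  -- the balls around `u0`
  obtain ⟨Bl, hB0, hB1⟩ : ∃ Bl : ℕ → Set U, Bl 0 = {u0} ∧
      ∀ k, Bl (k + 1) = Bl k ∪ ⋃ v ∈ Bl k, {w : U | ({v, w} : Finset U) ∈ K} :=
    ⟨fun k => Nat.rec {u0} (fun _ S => S ∪ ⋃ v ∈ S, {w : U | ({v, w} : Finset U) ∈ K}) k,
      rfl, fun k => rfl⟩
  have hfin : ∀ k, (Bl k).Finite := by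
    intro k
    induction k with
    | zero => rw [hB0]; exact Set.finite_singleton u0
    | succ k ih => rw [hB1]; exact ih.union (ih.biUnion fun v _ => hE v)
  set R : Set U := ⋃ k, Bl k with hR
  have hcount : R.Countable := Set.countable_iUnion fun k => (hfin k).countable
  have hu0R : u0 ∈ R := Set.mem_iUnion.mpr ⟨0, by rw [hB0]; rfl⟩
  have hstep : ∀ a b : U, ({a, b} : Finset U) ∈ K → a ∈ R → b ∈ R := by
    intro a b hab ha
    obtain ⟨k, hk⟩ := Set.mem_iUnion.mp ha
    refine Set.mem_iUnion.mpr ⟨k + 1, ?_⟩
    rw [hB1]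
    exact Or.inr (Set.mem_biUnion hk hab)
  -- every vertex is in `R`
  have hall : ∀ v : U, ({v} : Finset U) ∈ K → v ∈ R := by
    intro v hv
    by_contra hvR
    let w : Finset U → ZMod 2 := fun s => if ∃ a ∈ R, s = {a} then 1 else 0
    have hw1 : ∀ a, w {a} = if a ∈ R then 1 else 0 := by
      intro a
      by_cases ha : a ∈ R
      · rw [if_pos ha]
        exact if_pos ⟨a, ha, rfl⟩
      · rw [if_neg ha]
        refine if_neg ?_
        rintro ⟨b, hb, hab⟩
        rw [Finset.singleton_inj.mp hab] at ha
        exact ha hb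
    have hw0 : ∀ s : Finset U, s.card ≠ 1 → w s = 0 := by
      intro s hs
      refine if_neg ?_
      rintro ⟨b, -, hab⟩
      exact hs (by rw [hab, Finset.card_singleton])
    let φ : (Finset U →₀ ZMod 2) →ₗ[ZMod 2] ZMod 2 := Finsupp.linearCombination (ZMod 2) w
    have hφ : ∀ s : Finset U, φ (Finsupp.single s 1) = w s := by
      intro s
      simp only [φ, Finsupp.linearCombination_single, one_smul]
    have hbd : ∀ s : Finset U, φ (bdS (Finsupp.single s 1)) = ∑ x ∈ s, w (s.erase x) := by
      intro s
      simp only [bdS, Finsupp.linearCombination_single, one_smul, map_sum, hφ]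
    have hbd0 : ∀ s ∈ K, φ (bdS (Finsupp.single s 1)) = 0 := by
      intro s hs
      rw [hbd]
      by_cases hc : s.card = 2
      · obtain ⟨a, b, hab, rfl⟩ := Finset.card_eq_two.mp hc
        have h1 : ({a, b} : Finset U).erase a = {b} := by
          rw [Finset.erase_insert (by simpa using hab)]
        have h2 : ({a, b} : Finset U).erase b = {a} := by
          rw [Finset.pair_comm, Finset.erase_insert (by simpa using hab.symm)]
        rw [Finset.sum_pair hab, h1, h2, hw1, hw1]
        have hiff : a ∈ R ↔ b ∈ R :=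
          ⟨hstep a b hs, hstep b a (by rw [Finset.pair_comm]; exact hs)⟩
        by_cases ha : a ∈ R
        · rw [if_pos ha, if_pos (hiff.mp ha)]; decide
        · rw [if_neg ha, if_neg (fun hb => ha (hiff.mpr hb))]; decide
      · refine Finset.sum_eq_zero fun x hx => hw0 _ ?_
        rw [Finset.card_erase_of_mem hx]
        have := Finset.card_pos.mpr ⟨x, hx⟩
        omega
    obtain ⟨g, hg, hgf⟩ := hK (Finsupp.single {u0} 1 + Finsupp.single {v} 1)
      (by
        intro s hs
        left
        by_contra hsK
        apply hs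
        have e1 : ({u0} : Finset U) ≠ s := fun h => hsK (h ▸ hu)
        have e2 : ({v} : Finset U) ≠ s := fun h => hsK (h ▸ hv)
        rw [Finsupp.add_apply, Finsupp.single_eq_of_ne' e1, Finsupp.single_eq_of_ne' e2, add_zero])
      (by
        rw [map_add]
        have : ∀ a : U, bdS (Finsupp.single ({a} : Finset U) (1 : ZMod 2)) =
            Finsupp.single ∅ 1 := by
          intro a
          simp only [bdS, Finsupp.linearCombination_single, one_smul, Finset.sum_singleton]
          rw [Finset.erase_eq_empty_iff _ _ |>.mpr (Or.inr rfl)]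
        rw [this, this, ← Finsupp.single_add]
        have h2 : (1 : ZMod 2) + 1 = 0 := by decide
        rw [h2, Finsupp.single_zero])
    have hz : φ (bdS g) = 0 := by
      have hsum : g = ∑ s ∈ g.support, g s • Finsupp.single s (1 : ZMod 2) := by
        conv_lhs => rw [← Finsupp.sum_single g]
        rw [Finsupp.sum]
        refine Finset.sum_congr rfl fun s _ => ?_
        rw [Finsupp.smul_single, smul_eq_mul, mul_one]
      rw [hsum, map_sum, map_sum]
      refine Finset.sum_eq_zero fun s hs => ?_
      rw [map_smul, map_smul, hbd0 s (hg s (Finsupp.mem_support_iff.mp hs)), smul_zero]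
    rw [hgf, map_add, hφ, hφ, hw1, hw1, if_pos hu0R, if_neg hvR, add_zero] at hz
    exact one_ne_zero hz
  -- the injection
  obtain ⟨e, he⟩ := Set.countable_iff_exists_injOn.mp hcount
  refine ⟨e, fun s hs => ?_⟩
  intro a ha b hb hab
  have hmem : ∀ x ∈ (s : Set U), x ∈ R := fun x hx =>
    hall x (hM.down s hs _ (Finset.singleton_subset_iff.mpr hx) (Finset.singleton_nonempty x))
  exact he (hmem a ha) (hmem b hb) hab

end Pool.Agent.H65.RM
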