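import Pool.Agent.H65.RM.Defs
import Pool.Agent.H37.TM.Tot
import Pool.Agent.H37.TM.Lift

/-!
# Project RM: equivariance of the complex of pairs, and the chain map from the cubes `(g, s)`
-/

set_option autoImplicit false
set_option linter.unusedSectionVars false

open Finset Pointwise

namespace Pool.Agent.H65.RM

open Pool.Agent.H37.TM

/-! ### Generalities -/

/-- the action on the chains of a set with an action, as linear maps -/
noncomputable def rhoM (Γ A : Type) [Group Γ] (φ : Γ → A → A) (h1 : φ 1 = id)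
    (hm : ∀ g h, φ (g * h) = φ g ∘ φ h) : Γ →* ((A →₀ ZMod 2) →ₗ[ZMod 2] (A →₀ ZMod 2)) where
  toFun g := Finsupp.lmapDomain (ZMod 2) (ZMod 2) (φ g)
  map_one' := by
    rw [h1, Finsupp.lmapDomain_id]
    rfl
  map_mul' g h := by
    rw [hm, Finsupp.lmapDomain_comp]
    rfl

theorem mapDomain_lin {A B C : Type} (φ : B → C) {f : A → (B →₀ ZMod 2)} {x : A →₀ ZMod 2} :
    (lin f x).mapDomain φ = lin (fun c => (f c).mapDomain φ) x :=
  map_lin (Finsupp.lmapDomain (ZMod 2) (ZMod 2) φ)

theorem lin_mapDomain {A B N : Type} [AddCommGroup N] [Module (ZMod 2) N] (φ : A → B)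
    {f : B → N} {x : A →₀ ZMod 2} : lin f (x.mapDomain φ) = lin (fun c => f (φ c)) x := by
  unfold lin
  rw [Finsupp.linearCombination_mapDomain]
  rfl

/-- a symmetric function of ordered pairs sums to zero -/
theorem sum_pairs_zero {W N : Type} [DecidableEq W] [AddCommGroup N] [Module (ZMod 2) N]
    (s : Finset W) (F : W → W → N) (hF : ∀ u ∈ s, ∀ w ∈ s, u ≠ w → F u w = F w u) :
    ∑ u ∈ s, ∑ w ∈ s.erase u, F u w = 0 := by
  rw [Finset.sum_sigma']
  refine Finset.sum_involution (fun p _ => ⟨p.2, p.1⟩) ?_ ?_ ?_ ?_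
  · rintro ⟨u, w⟩ h
    rw [Finset.mem_sigma] at h
    have h1 : u ∈ s := h.1
    have h2 : w ∈ s.erase u := h.2
    have h3 := Finset.mem_erase.1 h2
    show F u w + F w u = 0
    rw [hF u h1 w h3.2 h3.1.symm]
    exact add_self_mod _
  · rintro ⟨u, w⟩ h _ he
    rw [Finset.mem_sigma] at h
    have h1 : w = u := congrArg Sigma.fst he
    exact Finset.ne_of_mem_erase h.2 h1
  · rintro ⟨u, w⟩ h
    rw [Finset.mem_sigma] at h ⊢
    have h1 : u ∈ s := h.1
    have h2 : w ∈ s.erase u := h.2
    exact ⟨Finset.mem_of_mem_erase h2,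
      Finset.mem_erase.2 ⟨(Finset.ne_of_mem_erase h2).symm, h1⟩⟩
  · rintro ⟨u, w⟩ _
    rfl

section

variable {A U : Type} [Group A] [DecidableEq U] [MulAction A U] {K B : Set (Finset U)} {n : ℕ}

/-! ### The complex of pairs -/

theorem smul_mem_iff (hA : PAct A K B) (g : A) (s : Finset U) : g • s ∈ K ↔ s ∈ K := by
  refine ⟨fun h => ?_, hA.K_mem g s⟩
  have := hA.K_mem g⁻¹ _ h
  rwa [inv_smul_smul] at this

theorem smul_memB_iff (hA : PAct A K B) (g : A) (s : Finset U) : g • s ∈ B ↔ s ∈ B := by
  refine ⟨fun h => ?_, hA.B_mem g s⟩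
  have := hA.B_mem g⁻¹ _ h
  rwa [inv_smul_smul] at this

theorem erase_smul (g : A) (s : Finset U) (v : U) : (g • s).erase (g • v) = g • s.erase v := by
  ext w
  obtain ⟨u, rfl⟩ : ∃ u, g • u = w := ⟨g⁻¹ • w, smul_inv_smul g w⟩
  rw [Finset.mem_erase, Finset.smul_mem_smul_finset_iff, Finset.smul_mem_smul_finset_iff,
    Finset.mem_erase]
  refine and_congr_left fun _ => not_congr ?_
  exact (MulAction.injective g).eq_iff

theorem cofs_smul (hA : PAct A K B) (g : A) (t : Finset U) (j : ℕ) :
    cofs K (g • t) j = (cofs K t j).map ⟨fun s => g • s, MulAction.injective g⟩ := by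
  classical
  have hset : {t' | t' ∈ K ∧ g • t ⊆ t' ∧ t'.card = j} =
      (fun s => g • s) '' {t' | t' ∈ K ∧ t ⊆ t' ∧ t'.card = j} := by
    ext t'
    constructor
    · rintro ⟨h1, h2, h3⟩
      refine ⟨g⁻¹ • t', ⟨?_, ?_, ?_⟩, smul_inv_smul g t'⟩
      · rw [smul_mem_iff hA]; exact h1
      · rw [← Finset.smul_finset_subset_smul_finset_iff (a := g), smul_inv_smul]
        exact h2
      · rw [Finset.card_smul_finset]; exact h3
    · rintro ⟨s, ⟨h1, h2, h3⟩, rfl⟩
      refine ⟨(smul_mem_iff hA g s).2 h1, ?_, ?_⟩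
      · exact Finset.smul_finset_subset_smul_finset h2
      · rw [Finset.card_smul_finset]; exact h3
  have hfin : {t' | t' ∈ K ∧ g • t ⊆ t' ∧ t'.card = j}.Finite ↔
      {t' | t' ∈ K ∧ t ⊆ t' ∧ t'.card = j}.Finite := by
    rw [hset]
    exact Set.finite_image_iff (MulAction.injective g).injOn
  unfold cofs
  by_cases h : {t' | t' ∈ K ∧ t ⊆ t' ∧ t'.card = j}.Finite
  · rw [dif_pos h, dif_pos (hfin.2 h)]
    ext t'
    rw [Set.Finite.mem_toFinset, Finset.mem_map]
    have : t' ∈ {t' | t' ∈ K ∧ g • t ⊆ t' ∧ t'.card = j} ↔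
        t' ∈ (fun s => g • s) '' {t' | t' ∈ K ∧ t ⊆ t' ∧ t'.card = j} := by rw [hset]
    rw [this]
    simp only [Set.mem_image, Set.Finite.mem_toFinset]
    rfl
  · rw [dif_neg h, dif_neg fun h' => h (hfin.1 h'), Finset.map_empty]

theorem bdE_smul (hA : PAct A K B) (g : A) (e : Finset U × Finset U) :
    bdE K n (g • e) = (bdE K n e).mapDomain (g • ·) := by
  have he : g • e = (g • e.1, g • e.2) := rfl
  unfold bdE
  by_cases h0 : e.1 = ∅
  · rw [if_pos h0, he, if_pos (by change g • e.1 = ∅; rw [h0, Finset.smul_finset_empty]),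
      Finsupp.mapDomain_zero]
  · have h0' : ¬ (g • e).1 = ∅ := by
      change ¬ g • e.1 = ∅
      rwa [Finset.smul_finset_eq_empty]
    rw [if_neg h0, if_neg h0', Finsupp.mapDomain_add]
    have hc1 : (g • e).1.card = e.1.card := Finset.card_smul_finset g e.1
    have hc2 : (g • e).2.card = e.2.card := Finset.card_smul_finset g e.2
    congr 1
    · rw [hc1, hc2]
      split_ifs with h1 h2
      · rw [Finsupp.mapDomain_single]
        congr 1
      · rw [Finsupp.mapDomain_zero]
      · rw [Finsupp.mapDomain_finsetSum]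
        change ∑ v ∈ g • e.1, Finsupp.single ((g • e.1).erase v, g • e.2) 1 = _
        have hsm : g • e.1 = e.1.map ⟨fun u => g • u, MulAction.injective g⟩ := by
          rw [Finset.map_eq_image]
          rfl
        conv_lhs => rw [hsm]
        rw [Finset.sum_map]
        refine Finset.sum_congr rfl fun v _ => ?_
        rw [Finsupp.mapDomain_single, ← hsm]
        change Finsupp.single ((g • e.1).erase (g • v), g • e.2) 1 =
          Finsupp.single (g • (e.1.erase v), g • e.2) 1
        rw [erase_smul]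
    · rw [Finsupp.mapDomain_finsetSum]
      change ∑ t ∈ cofs K (g • e.2) ((g • e).2.card + 1), Finsupp.single (g • e.1, t) 1 = _
      rw [hc2, cofs_smul hA, Finset.sum_map]
      refine Finset.sum_congr rfl fun t _ => ?_
      rw [Finsupp.mapDomain_single]
      rfl

/-- the boundary is equivariant -/
theorem bdT_smul (hA : PAct A K B) (g : A) (x : Finset U × Finset U →₀ ZMod 2) :
    bdT K n (x.mapDomain (g • ·)) = (bdT K n x).mapDomain (g • ·) := by
  change lin (bdE K n) (x.mapDomain (g • ·)) = (lin (bdE K n) x).mapDomain (g • ·)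
  rw [lin_mapDomain, mapDomain_lin]
  exact lin_congr fun c _ => bdE_smul hA g c

theorem tcell_smul (hA : PAct A K B) (g : A) (i : ℕ) (e : Finset U × Finset U)
    (he : e ∈ TCell K B n i) : g • e ∈ TCell K B n i := by
  cases i with
  | zero =>
    have h : e = (∅, ∅) := he
    rw [h]
    change ((g • ∅ : Finset U), (g • ∅ : Finset U)) = (∅, ∅)
    rw [Finset.smul_finset_empty]
  | succ m =>
    obtain ⟨h1, h2, h3, h4, h5⟩ := he
    refine ⟨?_, ?_, ?_, ?_, ?_⟩
    · exact h1.smul_finset
    · exact Finset.smul_finset_subset_smul_finset h2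
    · exact (smul_mem_iff hA g _).2 h3
    · exact fun h => h4 ((smul_memB_iff hA g _).1 h)
    · change (g • e.1).card + n = (g • e.2).card + m
      rw [Finset.card_smul_finset, Finset.card_smul_finset]
      exact h5

theorem tn_smul (hA : PAct A K B) (g : A) (i : ℕ) (x : Finset U × Finset U →₀ ZMod 2)
    (hx : x ∈ TN K B n i) : x.mapDomain (g • ·) ∈ TN K B n i := by
  classical
  unfold TN at hx ⊢
  rw [Finsupp.mem_supported] at hx ⊢
  intro e he
  have h := Finsupp.mapDomain_support he
  rw [Finset.mem_image] at h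
  obtain ⟨e', he', rfl⟩ := h
  exact tcell_smul hA g i e' (hx he')

theorem tn_cell {i : ℕ} {y : Finset U × Finset U →₀ ZMod 2} (hy : y ∈ TN K B n i)
    (c : Finset U × Finset U) (hc : y c ≠ 0) : c ∈ TCell K B n i := by
  unfold TN at hy
  rw [Finsupp.mem_supported] at hy
  exact hy (Finsupp.mem_support_iff.2 hc)

/-- the action on the pairs -/
noncomputable def rhoE (A U : Type) [DecidableEq U] [Group A] [MulAction A U] :
    A →* ((Finset U × Finset U →₀ ZMod 2) →ₗ[ZMod 2] (Finset U × Finset U →₀ ZMod 2)) :=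
  rhoM A (Finset U × Finset U) (fun g e => g • e) (funext fun e => one_smul A e)
    fun g h => funext fun e => mul_smul g h e

end

/-! ### The cubes `(g, s)` -/

section

variable {A W : Type} [Group A] [DecidableEq W]

/-- the cubes `(g, s)` of dimension `i` -/
def ACell (A : Type) {W : Type} (O : SimpleGraph W) (i : ℕ) : Set (A × Finset W) :=
  {c | O.IsClique (c.2 : Set W) ∧ c.2.card = i}

/-- the boundary of the cube `(g, s)` -/
noncomputable def bdA (e : W → A) (c : A × Finset W) : A × Finset W →₀ ZMod 2 :=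
  ∑ w ∈ c.2, (Finsupp.single (c.1, c.2.erase w) 1 + Finsupp.single (c.1 * e w, c.2.erase w) 1)

/-- faces are cells -/
theorem bdA_cell {O : SimpleGraph W} {e : W → A} {i : ℕ} {c : A × Finset W}
    (hc : c ∈ ACell A O (i + 1)) (b : A × Finset W) (hb : bdA e c b ≠ 0) : b ∈ ACell A O i := by
  classical
  by_contra hn
  apply hb
  unfold bdA
  rw [Finsupp.finsetSum_apply]
  refine Finset.sum_eq_zero fun w hw => ?_
  have h1 : O.IsClique ((c.2.erase w : Finset W) : Set W) :=
    hc.1.subset (by exact_mod_cast Finset.erase_subset w c.2)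
  have h2 : (c.2.erase w).card = i := by
    rw [Finset.card_erase_of_mem hw, hc.2]
    rfl
  rw [Finsupp.add_apply, Finsupp.single_apply, Finsupp.single_apply, if_neg, if_neg, add_zero]
  · rintro rfl
    exact hn ⟨h1, h2⟩
  · rintro rfl
    exact hn ⟨h1, h2⟩

theorem bdA_zero {O : SimpleGraph W} {e : W → A} {c : A × Finset W} (hc : c ∈ ACell A O 0) :
    bdA e c = 0 := by
  unfold bdA
  rw [Finset.card_eq_zero.1 hc.2, Finset.sum_empty]

theorem bdA_smul (e : W → A) (h : A) (c : A × Finset W) :
    bdA e (h * c.1, c.2) = (bdA e c).mapDomain (fun c => (h * c.1, c.2)) := by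
  unfold bdA
  rw [Finsupp.mapDomain_finsetSum]
  refine Finset.sum_congr rfl fun w _ => ?_
  rw [Finsupp.mapDomain_add, Finsupp.mapDomain_single, Finsupp.mapDomain_single]
  dsimp only
  rw [mul_assoc]

theorem bdA_bdA {O : SimpleGraph W} {e : W → A}
    (hc : ∀ u w, O.Adj u w → e u * e w = e w * e u) {c : A × Finset W}
    (hO : O.IsClique (c.2 : Set W)) : lin (bdA e) (bdA e c) = 0 := by
  obtain ⟨g, s⟩ := c
  have h1 : lin (bdA e) (bdA e (g, s)) = ∑ u ∈ s, ∑ w ∈ s.erase u,
      ((Finsupp.single (g, (s.erase u).erase w) (1 : ZMod 2) +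
          Finsupp.single (g * e w, (s.erase u).erase w) 1) +
        (Finsupp.single (g * e u, (s.erase u).erase w) 1 +
          Finsupp.single (g * e u * e w, (s.erase u).erase w) 1)) := by
    conv_lhs => rw [show bdA e (g, s) = ∑ u ∈ s, (Finsupp.single (g, s.erase u) 1 +
      Finsupp.single (g * e u, s.erase u) 1) from rfl]
    rw [map_sum]
    refine Finset.sum_congr rfl fun u _ => ?_
    rw [map_add, lin_single, lin_single]
    unfold bdA
    rw [← Finset.sum_add_distrib]
  rw [h1]
  refine sum_pairs_zero s _ fun u hu w hw huw => ?_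
  have h2 : O.Adj u w := hO hu hw huw
  rw [Finset.erase_right_comm, mul_assoc g (e u) (e w), hc u w h2, ← mul_assoc g (e w) (e u)]
  abel

/-- The chain map from the cubes to the complex of pairs. -/
theorem exists_psi {U : Type} [DecidableEq U] [MulAction A U] {K B : Set (Finset U)} {n : ℕ}
    (O : SimpleGraph W) (e : W → A) (hc : ∀ u w, O.Adj u w → e u * e w = e w * e u)
    (hM : Mfd K B n) (hK : Acyc K) (hA : PAct A K B) :
    ∃ Ψ : A × Finset W → (Finset U × Finset U →₀ ZMod 2),
      (∀ i, ∀ c ∈ ACell A O i, Ψ c ∈ TN K B n (i + 1)) ∧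
      (∀ (h : A) i, ∀ c ∈ ACell A O i, Ψ (h * c.1, c.2) = (Ψ c).mapDomain (h • ·)) ∧
      ∀ i, ∀ c ∈ ACell A O i, bdT K n (Ψ c) =
        (if i = 0 then Finsupp.single (∅, ∅) 1 else 0) + lin Ψ (bdA e c) := by
  classical
  let act : MulAction A (A × Finset W) :=
    { smul := fun h c => (h * c.1, c.2)
      one_smul := fun c => by
        change (1 * c.1, c.2) = c
        rw [one_mul]
      mul_smul := fun h h' c => by
        change ((h * h') * c.1, c.2) = (h * (h' * c.1), c.2)
        rw [mul_assoc] }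
  have hconst : ∀ (F : Finset W → (Finset U × Finset U →₀ ZMod 2)) (c : A × Finset W),
      lin (fun c : A × Finset W => F c.2) (bdA e c) = 0 := by
    intro F c
    unfold bdA
    rw [map_sum]
    refine Finset.sum_eq_zero fun v _ => ?_
    rw [map_add, lin_single, lin_single]
    exact add_self_mod _
  obtain ⟨H, h1, h2, h3⟩ := lift_free (Γ := A) (A := A × Finset W)
    (N := Finset U × Finset U →₀ ZMod 2) (ACell A O)
    (fun i g c hc' => hc') (fun i j c hi hj => hi.2.symm.trans hj.2)
    (fun i c _ g h => by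
      have h' : g * c.1 = c.1 := congrArg Prod.fst h
      exact mul_eq_right.1 h')
    (bdA e) (fun i c hc' b hb => bdA_cell hc' b hb) (fun c hc' => bdA_zero hc')
    (fun i g c _ => bdA_smul e g c) (fun i c hc' => bdA_bdA hc hc'.1)
    (rhoE A U) (bdT K n) (fun g x => bdT_smul hA g x)
    (TN K B n) (fun i g x hx => tn_smul hA g i x hx)
    (fun i _ x hx h0 => tot_exact hM (hK.lt i) i le_rfl x hx h0)
    (fun c => if c.2 = ∅ then Finsupp.single (∅, ∅) 1 else 0)
    (fun i c hc' => by
      split_ifs with h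
      · have hi : i = 0 := by
          rw [← hc'.2, h, Finset.card_empty]
        subst hi
        exact Finsupp.single_mem_supported (ZMod 2) (1 : ZMod 2)
          (show ((∅ : Finset U), (∅ : Finset U)) ∈ TCell K B n 0 from rfl)
      · exact Submodule.zero_mem _)
    (fun i g c _ => by
      change (if c.2 = ∅ then Finsupp.single ((∅ : Finset U), (∅ : Finset U)) (1 : ZMod 2) else 0) =
        (if c.2 = ∅ then Finsupp.single ((∅ : Finset U), (∅ : Finset U)) (1 : ZMod 2)
          else 0).mapDomain (g • ·)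
      split_ifs with h
      · rw [Finsupp.mapDomain_single]
        congr 1
      · rw [Finsupp.mapDomain_zero])
    (fun i c _ => by
      rw [hconst (fun σ => if σ = ∅ then Finsupp.single ((∅ : Finset U), (∅ : Finset U))
        (1 : ZMod 2) else 0) c]
      split_ifs with h
      · change lin (bdE K n) (Finsupp.single ((∅ : Finset U), (∅ : Finset U)) (1 : ZMod 2)) = 0
        rw [lin_single]
        unfold bdE
        rw [if_pos rfl]
      · rw [map_zero])
  refine ⟨H, h1, fun h i c hc' => h2 i h c hc', fun i c hc' => ?_⟩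
  rw [h3 i c hc']
  congr 1
  have h := hc'.2
  by_cases hi : i = 0
  · subst hi
    rw [if_pos rfl, if_pos (Finset.card_eq_zero.1 h)]
  · rw [if_neg hi, if_neg]
    intro h'
    rw [h', Finset.card_empty] at h
    exact hi h.symm

end

end Pool.Agent.H65.RM
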