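import Pool.Agent.H65.RM.Man
import Pool.Agent.H65.RM.Equi
import Pool.Agent.H65.RM.Height

/-!
# Project RM: intersection numbers from a proper action on a homology manifold
-/

set_option autoImplicit false

open Finset Pointwise

namespace Pool.Agent.H65.RM

open Pool.Agent.H37.TM

/-- **Intersection numbers from a proper action on a homology manifold.** -/
theorem exists_inter {A W U : Type} [Group A] [DecidableEq W] [Fintype W] [DecidableEq U]
    [MulAction A U] (O : SimpleGraph W) (e : W → A)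
    (hc : ∀ u w, O.Adj u w → e u * e w = e w * e u) {K B : Set (Finset U)} {n : ℕ}
    (hM : Mfd K B n) (hK : Acyc K) (hA : PAct A K B) :
    ∃ H : A → Finset W → A → Finset W → ZMod 2, Inter O e n H := by
  obtain ⟨Ψ, hΨ⟩ := exists_psi O e hc hM hK hA
  obtain ⟨ht, hinj⟩ := exists_height hM hK
  refine ⟨_, inter_of_psi hM hK hinj (Ψ := Ψ) (e := e) ⟨fun g s hs => ?_, fun h g s hs => ?_,
    fun g s hs => ?_⟩ hA⟩
  · exact hΨ.1 s.card (g, s) ⟨hs, rfl⟩
  · exact hΨ.2.1 h s.card (g, s) ⟨hs, rfl⟩
  · have h1 := hΨ.2.2 s.card (g, s) ⟨hs, rfl⟩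
    rw [h1]
    congr 1
    exact if_congr card_eq_zero rfl rfl

end Pool.Agent.H65.RM
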