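import Pool.Agent.H65.RM.Defs
import Pool.Agent.H37.TM.Tot
import Pool.Agent.H37.TM.Lift

/-!
# Project RM: the cochains dual to the images of the cubes
-/

set_option autoImplicit false
set_option linter.unusedSectionVars false

open Finset Pointwise

namespace Pool.Agent.H65.RM

open Pool.Agent.H37.TM

variable {A W U : Type} [Group A] [DecidableEq W] [DecidableEq U] [MulAction A U]

/-- the boundary of the cube `(g, s)` -/
noncomputable def bdO (e : W → A) (c : A × Finset W) : A × Finset W →₀ ZMod 2 :=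
  ∑ w ∈ c.2, (Finsupp.single (c.1, c.2.erase w) 1 + Finsupp.single (c.1 * e w, c.2.erase w) 1)

/-- equivariant chain maps from the cubes to the pairs of simplices -/
structure IsPsi (O : SimpleGraph W) (e : W → A) (K B : Set (Finset U)) (n : ℕ)
    (Ψ : A × Finset W → (Finset U × Finset U →₀ ZMod 2)) : Prop where
  mem : ∀ (g : A) (s : Finset W), O.IsClique (s : Set W) → Ψ (g, s) ∈ TN K B n (s.card + 1)
  smul : ∀ (h g : A) (s : Finset W), O.IsClique (s : Set W) →
    Ψ (h * g, s) = (Ψ (g, s)).mapDomain (h • ·)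
  bd : ∀ (g : A) (s : Finset W), O.IsClique (s : Set W) →
    bdT K n (Ψ (g, s)) = (if s = ∅ then Finsupp.single (∅, ∅) 1 else 0) + lin Ψ (bdO e (g, s))

/-- the cochain dual to the image of a cube -/
noncomputable def al (Ψ : A × Finset W → (Finset U × Finset U →₀ ZMod 2)) (c : A × Finset W)
    (t : Finset U) : ZMod 2 := ∑ v ∈ t, Ψ c ({v}, t)

variable {O : SimpleGraph W} {e : W → A} {K B : Set (Finset U)} {n : ℕ}
  {Ψ : A × Finset W → (Finset U × Finset U →₀ ZMod 2)}

theorem al_empty (c : A × Finset W) : al Ψ c ∅ = 0 := by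
  unfold al
  rw [sum_empty]

theorem al_supp (hΨ : IsPsi O e K B n Ψ) {g : A} {s : Finset W} (hs : O.IsClique (s : Set W))
    {t : Finset U} (h : al Ψ (g, s) t ≠ 0) : t ∈ K ∧ t ∉ B ∧ t.card + s.card = n + 1 := by
  unfold al at h
  obtain ⟨v, hv, hne⟩ := exists_ne_zero_of_sum_ne_zero h
  have h1 := (Finsupp.mem_supported _ _).1 (hΨ.mem g s hs) (mem_coe.2 (Finsupp.mem_support_iff.2 hne))
  obtain ⟨-, -, h3, h4, h5⟩ := h1
  simp only [card_singleton] at h3 h4 h5
  exact ⟨h3, h4, by omega⟩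

theorem al_fin (c : A × Finset W) : {t | al Ψ c t ≠ 0}.Finite := by
  classical
  refine Set.Finite.subset (((Ψ c).support.image Prod.snd).finite_toSet) fun t ht => ?_
  obtain ⟨v, _, hne⟩ := exists_ne_zero_of_sum_ne_zero ht
  exact mem_coe.2 (mem_image.2 ⟨({v}, t), Finsupp.mem_support_iff.2 hne, rfl⟩)

theorem lin_bdO (g : A) (s : Finset W) : lin Ψ (bdO e (g, s)) =
    ∑ w ∈ s, (Ψ (g, s.erase w) + Ψ (g * e w, s.erase w)) := by
  unfold bdO
  rw [map_sum]
  refine sum_congr rfl fun w _ => ?_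
  rw [map_add, lin_single, lin_single]

/-- the coboundary of the cochain of a cube is the sum of the cochains of its faces -/
theorem cob_al (hM : Mfd K B n) (hK : Acyc K) (hΨ : IsPsi O e K B n Ψ) {g : A} {s : Finset W}
    (hs : O.IsClique (s : Set W)) {t : Finset U} (ht : t ∈ K ∨ t = ∅) :
    cob (al Ψ (g, s)) t =
      ∑ w ∈ s, (al Ψ (g, s.erase w) t + al Ψ (g * e w, s.erase w) t) := by
  classical
  rcases ht with ht | rfl
  · have h1 : ∀ v ∈ t, bdT K n (Ψ (g, s)) ({v}, t) =
        ∑ w ∈ t.erase v, Ψ (g, s) ({v, w}, t) + ∑ w ∈ t.erase v, Ψ (g, s) ({v}, t.erase w) := by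
      intro v hv
      rw [bdT_apply hM (hK.lt 0) (hΨ.mem g s hs) (singleton_nonempty v),
        TotX.MX.D_of (toMX hM (hK.lt 0)) (singleton_nonempty v) (singleton_subset_iff.2 hv)
          (show t ∈ (toMX hM (hK.lt 0)).faces from ht), sdiff_singleton_eq_erase, ← sum_add_distrib]
      refine sum_congr rfl fun w _ => ?_
      rw [Finset.pair_comm]
    have h2 : ∀ v, bdT K n (Ψ (g, s)) ({v}, t) =
        ∑ w ∈ s, (Ψ (g, s.erase w) ({v}, t) + Ψ (g * e w, s.erase w) ({v}, t)) := by
      intro v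
      rw [hΨ.bd g s hs, lin_bdO, Finsupp.add_apply, Finsupp.finsetSum_apply]
      have h3 : (if s = ∅ then Finsupp.single ((∅ : Finset U), (∅ : Finset U)) (1 : ZMod 2)
          else 0) ({v}, t) = 0 := by
        split_ifs
        · rw [Finsupp.single_apply, if_neg]
          intro h
          exact (singleton_ne_empty v) (congrArg Prod.fst h).symm
        · rfl
      rw [h3, zero_add]
      rfl
    have h3 : ∑ v ∈ t, bdT K n (Ψ (g, s)) ({v}, t) = cob (al Ψ (g, s)) t := by
      rw [sum_congr rfl h1, sum_add_distrib,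
        TotX.sum_pairs_symm t (fun v w => Ψ (g, s) ({v, w}, t))
          (fun u w => by rw [Finset.pair_comm]), zero_add]
      unfold cob al
      rw [Finset.sum_sigma', Finset.sum_sigma']
      refine sum_bij' (fun p _ => ⟨p.2, p.1⟩) (fun p _ => ⟨p.2, p.1⟩) ?_ ?_ ?_ ?_ ?_
      · rintro ⟨v, w⟩ h
        simp only [mem_sigma, mem_erase] at h ⊢
        exact ⟨h.2.2, fun h' => h.2.1 h'.symm, h.1⟩
      · rintro ⟨w, v⟩ h
        simp only [mem_sigma, mem_erase] at h ⊢
        exact ⟨h.2.2, fun h' => h.2.1 h'.symm, h.1⟩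
      · rintro ⟨v, w⟩ _
        rfl
      · rintro ⟨v, w⟩ _
        rfl
      · rintro ⟨v, w⟩ _
        rfl
    rw [← h3, sum_congr rfl fun v _ => h2 v, sum_comm]
    refine sum_congr rfl fun w _ => ?_
    unfold al
    rw [sum_add_distrib]
  · unfold cob
    rw [sum_empty]
    symm
    refine sum_eq_zero fun w _ => ?_
    rw [al_empty, al_empty, add_zero]

/-- the augmentation -/
theorem sum_al (hM : Mfd K B n) (hΨ : IsPsi O e K B n Ψ) (g : A) :
    ∑ᶠ t, al Ψ (g, ∅) t = 1 := by
  classical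
  have h0 : O.IsClique ((∅ : Finset W) : Set W) := by
    rw [coe_empty]
    exact Set.pairwise_empty _
  have hmem := hΨ.mem g ∅ h0
  rw [card_empty, zero_add] at hmem
  -- the cells of index one
  have h1 : ∀ c ∈ (Ψ (g, ∅)).support, bdE K n c (∅, ∅) = 1 ∧ ∃ v ∈ c.2, c.1 = {v} := by
    intro c hc
    obtain ⟨h2, h3, h4, h5, h6⟩ := (Finsupp.mem_supported _ _).1 hmem (mem_coe.2 hc)
    have h6' : c.1.card + n = c.2.card + 0 := h6
    have h7 := hM.card_le _ h4
    have h8 := card_pos.2 h2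
    have h9 : c.1.card = 1 := by omega
    have h10 : c.2.card = n + 1 := by omega
    refine ⟨?_, ?_⟩
    · unfold bdE
      rw [if_neg h2.ne_empty, if_pos h9, if_pos h10, Finsupp.add_apply, Finsupp.single_apply,
        if_pos rfl, Finsupp.finsetSum_apply, sum_eq_zero, add_zero]
      intro t _
      rw [Finsupp.single_apply, if_neg]
      intro h
      exact h2.ne_empty (congrArg Prod.fst h)
    · obtain ⟨v, hv⟩ := card_eq_one.1 h9
      refine ⟨v, h3 ?_, hv⟩
      rw [hv]
      exact mem_singleton_self v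
  have h2 : bdT K n (Ψ (g, ∅)) (∅, ∅) = ∑ c ∈ (Ψ (g, ∅)).support, Ψ (g, ∅) c := by
    unfold bdT
    rw [Finsupp.linearCombination_apply, Finsupp.sum, Finsupp.finsetSum_apply]
    refine sum_congr rfl fun c hc => ?_
    rw [Finsupp.smul_apply, (h1 c hc).1, smul_eq_mul, mul_one]
  have h3 : bdT K n (Ψ (g, ∅)) (∅, ∅) = 1 := by
    rw [hΨ.bd g ∅ h0, if_pos rfl, lin_bdO, sum_empty, add_zero, Finsupp.single_apply, if_pos rfl]
  rw [finsum_eq_sum_of_support_subset (s := (Ψ (g, ∅)).support.image Prod.snd) _ (by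
    intro t ht
    obtain ⟨v, _, hne⟩ := exists_ne_zero_of_sum_ne_zero ht
    exact mem_coe.2 (mem_image.2 ⟨({v}, t), Finsupp.mem_support_iff.2 hne, rfl⟩)), ← h3, h2,
    ← sum_fiberwise_of_maps_to (s := (Ψ (g, ∅)).support)
      (t := (Ψ (g, ∅)).support.image Prod.snd) (g := Prod.snd)
      (fun c hc => mem_image_of_mem _ hc)]
  refine sum_congr rfl fun t _ => ?_
  unfold al
  symm
  rw [← sum_subset (s₁ := (t.filter fun v => Ψ (g, ∅) ({v}, t) ≠ 0)) (filter_subset _ _)
    (fun v hv hv' => by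
      by_contra h
      exact hv' (mem_filter.2 ⟨hv, h⟩))]
  refine sum_bij' (fun c hc => (h1 c (mem_filter.1 hc).1).2.choose) (fun v _ => ({v}, t))
    ?_ ?_ ?_ ?_ ?_
  · intro c hc
    have h4 := (h1 c (mem_filter.1 hc).1).2.choose_spec
    have h5 := (mem_filter.1 hc).2
    have h6 : c = ({(h1 c (mem_filter.1 hc).1).2.choose}, t) := Prod.ext h4.2 h5
    refine mem_filter.2 ⟨h5 ▸ h4.1, ?_⟩
    rw [← h6]
    exact Finsupp.mem_support_iff.1 (mem_filter.1 hc).1
  · intro v hv
    rw [mem_filter] at hv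
    exact mem_filter.2 ⟨Finsupp.mem_support_iff.2 hv.2, rfl⟩
  · intro c hc
    have h4 := (h1 c (mem_filter.1 hc).1).2.choose_spec
    exact (Prod.ext h4.2 (mem_filter.1 hc).2).symm
  · intro v hv
    rw [mem_filter] at hv
    have h4 := (h1 ({v}, t) (Finsupp.mem_support_iff.2 hv.2)).2.choose_spec
    exact (singleton_injective h4.2).symm
  · intro c hc
    have h4 := (h1 c (mem_filter.1 hc).1).2.choose_spec
    congr 1
    exact Prod.ext h4.2 (mem_filter.1 hc).2

theorem al_smul (hΨ : IsPsi O e K B n Ψ) (h g : A) {s : Finset W} (hs : O.IsClique (s : Set W))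
    (t : Finset U) : al Ψ (h * g, s) (h • t) = al Ψ (g, s) t := by
  classical
  unfold al
  rw [hΨ.smul h g s hs]
  have hsm : h • t = t.map ⟨fun u => h • u, MulAction.injective h⟩ := by
    rw [Finset.map_eq_image]
    rfl
  conv_lhs => rw [hsm]
  rw [Finset.sum_map]
  refine sum_congr rfl fun v _ => ?_
  rw [← hsm]
  have h1 : (({(⟨fun u => h • u, MulAction.injective h⟩ : U ↪ U) v}, h • t) :
      Finset U × Finset U) = h • (({v}, t) : Finset U × Finset U) := by
    change _ = (h • ({v} : Finset U), h • t)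
    rw [smul_finset_singleton]
    rfl
  rw [h1]
  exact Finsupp.mapDomain_apply (MulAction.injective h) _ _

end Pool.Agent.H65.RM
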