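import Pool.Agent.H65.RM.Main
import Pool.Agent.H65.RA.Main
import Pool.Agent.H75.Oct.Pair
import Pool.Agent.H78.RA.Artin

/-!
# Project RM: right-angled Artin groups acting on homology manifolds
-/

set_option autoImplicit false

open Finset

namespace Pool.Agent.H65.RM

open Pool.Agent.H37.TM Pool.Agent.H65.RA Pool.Agent.H78.RA

/-- the exponent sum of the generator `v` -/
def vexp {V : Type} [DecidableEq V] (G : SimpleGraph V) (v : V) :
    Artin G →* Multiplicative ℤ :=
  PresentedGroup.toGroup (f := fun u => Multiplicative.ofAdd (if u = v then 1 else 0)) (by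
    rintro r ⟨u, w, -, rfl⟩
    rw [map_mul, map_mul, map_mul, map_inv, map_inv, FreeGroup.lift_apply_of,
      FreeGroup.lift_apply_of, mul_comm (Multiplicative.ofAdd _) (Multiplicative.ofAdd _),
      mul_inv_cancel_right, mul_inv_cancel])

/-- **The obstructor theorem for right-angled Artin groups.** -/
theorem van_oct_artin {V U : Type} [DecidableEq V] [Fintype V] [DecidableEq U]
    (G : SimpleGraph V) [MulAction (Artin G) U] {K B : Set (Finset U)} {n k : ℕ}
    (hM : Mfd K B n) (hK : Acyc K) (hA : PAct (Artin G) K B) (hn : n ≤ 2 * k + 1) :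
    Pool.Agent.H85.VK.VanKampenZero (oct G) k := by
  refine van_oct_of_act G (agen G) (agen_comm G) (fun v g => Multiplicative.toAdd (vexp G v g))
    (fun v g h => ?_) (fun v u => ?_) hM hK hA hn
  · rw [map_mul, toAdd_mul]
  · have h1 : vexp G v (agen G u) = Multiplicative.ofAdd (if u = v then 1 else 0) :=
      PresentedGroup.toGroup.of _
    rw [h1, toAdd_ofAdd]

/-- **Q1 for right-angled Artin groups.** -/
theorem l2zero_of_act {V U : Type} [DecidableEq V] [Fintype V] [DecidableEq U]
    (G : SimpleGraph V) [MulAction (Artin G) U] {K B : Set (Finset U)} {n : ℕ}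
    (hM : Mfd K B n) (hK : Acyc K) (hA : PAct (Artin G) K B) (i : ℕ) (hi : n < 2 * i) :
    L2ZeroArtin G i := by
  obtain ⟨k, rfl⟩ : ∃ k, i = k + 1 := ⟨i - 1, by omega⟩
  refine l2zero_artin (Pool.Agent.H75.Oct.hz_of_pairing G (k + 1) fun x z hx hz hdz => ?_)
  exact van_pair (van_oct_artin G hM hK hA (k := k) (by omega)) x z hx hz hdz

end Pool.Agent.H65.RM
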