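import Pool.Agent.H65.RM.Defs

/-!
# Project RM: sums of intersection numbers over large boxes
-/

set_option autoImplicit false
set_option linter.unusedSectionVars false

open Finset

namespace Pool.Agent.H65.RM

variable {A W : Type} [Group A] [DecidableEq W]

/-- the product of the powers `e w ^ j w` over a list -/
def pl (e : W → A) (l : List W) (j : W → ℕ) : A := (l.map fun w => e w ^ j w).prod

theorem pl_comm {e : W → A} {S : Finset W} (hS : ∀ u ∈ S, ∀ w ∈ S, Commute (e u) (e w)) {w : W}
    (hw : w ∈ S) (i : ℕ) (l : List W) {j : W → ℕ} (hj : ∀ u, u ∉ S → j u = 0) :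
    Commute (e w ^ i) (pl e l j) := by
  unfold pl
  refine Commute.list_prod_right _ _ fun x hx => ?_
  rw [List.mem_map] at hx
  obtain ⟨u, _, rfl⟩ := hx
  by_cases hu : u ∈ S
  · exact (hS w hw u hu).pow_pow i (j u)
  · rw [hj u hu, pow_zero]
    exact Commute.one_right _

theorem pl_congr {e : W → A} {l : List W} {j j' : W → ℕ} (h : ∀ u ∈ l, j u = j' u) :
    pl e l j = pl e l j' := by
  unfold pl
  congr 1
  exact List.map_congr_left fun u hu => by rw [h u hu]

/-- the product for `j` with the value at `w` increased by `i` -/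
theorem pl_update {e : W → A} {S : Finset W} (hS : ∀ u ∈ S, ∀ w ∈ S, Commute (e u) (e w)) {w : W}
    (hw : w ∈ S) (i : ℕ) {j : W → ℕ} (hj : ∀ u, u ∉ S → j u = 0) :
    ∀ l : List W, l.Nodup → w ∈ l →
      pl e l (Function.update j w (j w + i)) = pl e l j * e w ^ i := by
  intro l
  induction l with
  | nil =>
    intro _ h
    exact absurd h List.not_mem_nil
  | cons u l ih =>
    intro hnd hwl
    rw [List.nodup_cons] at hnd
    have hcons : ∀ j' : W → ℕ, pl e (u :: l) j' = e u ^ j' u * pl e l j' := by
      intro j'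
      unfold pl
      rw [List.map_cons, List.prod_cons]
    rw [hcons, hcons]
    by_cases huw : u = w
    · subst huw
      have h1 : pl e l (Function.update j u (j u + i)) = pl e l j := by
        refine pl_congr fun v hv => ?_
        rw [Function.update_of_ne]
        rintro rfl
        exact hnd.1 hv
      rw [h1, Function.update_self, pow_add, mul_assoc, (pl_comm hS hw i l hj).eq, mul_assoc]
    · rw [Function.update_of_ne huw, ih hnd.2 ((List.mem_cons.1 hwl).resolve_left
        fun h => huw h.symm), mul_assoc]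

variable [Fintype W]

/-- the vertex with the coordinates `j` -/
noncomputable def PP (e : W → A) (j : W → ℕ) : A := pl e (univ : Finset W).toList j

theorem PP_zero (e : W → A) : PP e (fun _ => 0) = 1 := by
  unfold PP pl
  refine List.prod_eq_one fun x hx => ?_
  rw [List.mem_map] at hx
  obtain ⟨u, _, rfl⟩ := hx
  exact pow_zero _

theorem PP_update {e : W → A} {S : Finset W} (hS : ∀ u ∈ S, ∀ w ∈ S, Commute (e u) (e w)) {w : W}
    (hw : w ∈ S) (i : ℕ) {j : W → ℕ} (hj : ∀ u, u ∉ S → j u = 0) :
    PP e (Function.update j w (j w + i)) = PP e j * e w ^ i :=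
  pl_update hS hw i hj _ (nodup_toList _) (mem_toList.2 (mem_univ w))

/-- a homomorphism on a vertex -/
theorem ex_PP {e : W → A} (ex : A → ℤ) (hex : ∀ g h, ex (g * h) = ex g + ex h) (j : W → ℕ) :
    ex (PP e j) = ∑ u, (j u : ℤ) * ex (e u) := by
  have h1 : ex 1 = 0 := by
    have := hex 1 1
    rw [mul_one] at this
    omega
  have hpow : ∀ (g : A) (n : ℕ), ex (g ^ n) = (n : ℤ) * ex g := by
    intro g n
    induction n with
    | zero => simp [h1]
    | succ n ih =>
      rw [pow_succ, hex, ih]
      push_cast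
      ring
  have hl : ∀ l : List W, ex (pl e l j) = (l.map fun u => (j u : ℤ) * ex (e u)).sum := by
    intro l
    induction l with
    | nil => exact h1
    | cons u l ih =>
      have hcons : pl e (u :: l) j = e u ^ j u * pl e l j := by
        unfold pl
        rw [List.map_cons, List.prod_cons]
      rw [hcons, hex, hpow, ih, List.map_cons, List.sum_cons]
  unfold PP
  rw [hl]
  exact Finset.sum_map_toList _ _

/-- the box of size `N` over `σ` -/
def box (N : ℕ) (σ : Finset W) : Finset (W → ℕ) :=
  Fintype.piFinset fun w => if w ∈ σ then range N else {0}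

theorem mem_box {N : ℕ} {σ : Finset W} {j : W → ℕ} :
    j ∈ box N σ ↔ (∀ w ∈ σ, j w < N) ∧ ∀ w, w ∉ σ → j w = 0 := by
  unfold box
  rw [Fintype.mem_piFinset]
  constructor
  · intro h
    refine ⟨fun w hw => ?_, fun w hw => ?_⟩
    · have := h w
      rwa [if_pos hw, mem_range] at this
    · have := h w
      rwa [if_neg hw, mem_singleton] at this
  · rintro ⟨h1, h2⟩ w
    by_cases hw : w ∈ σ
    · rw [if_pos hw, mem_range]
      exact h1 w hw
    · rw [if_neg hw, mem_singleton]
      exact h2 w hw

theorem sum_box {N : ℕ} {σ : Finset W} {w : W} (hw : w ∈ σ) (F : (W → ℕ) → ZMod 2) :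
    ∑ j ∈ box N σ, F j = ∑ j ∈ box N (σ.erase w), ∑ i ∈ range N, F (Function.update j w i) := by
  rw [← sum_product']
  refine sum_bij' (fun j _ => (Function.update j w 0, j w))
    (fun p _ => Function.update p.1 w p.2) ?_ ?_ ?_ ?_ ?_
  · intro j hj
    rw [mem_box] at hj
    rw [mem_product, mem_box, mem_range]
    refine ⟨⟨fun u hu => ?_, fun u hu => ?_⟩, hj.1 w hw⟩
    · rw [mem_erase] at hu
      show Function.update j w 0 u < N
      rw [Function.update_of_ne hu.1]
      exact hj.1 u hu.2
    · by_cases huw : u = w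
      · rw [huw]
        exact Function.update_self _ _ _
      · show Function.update j w 0 u = 0
        rw [Function.update_of_ne huw]
        exact hj.2 u fun h => hu (mem_erase.2 ⟨huw, h⟩)
  · rintro ⟨j, i⟩ hj
    rw [mem_product, mem_box, mem_range] at hj
    rw [mem_box]
    refine ⟨fun u hu => ?_, fun u hu => ?_⟩
    · by_cases huw : u = w
      · rw [huw, Function.update_self]
        exact hj.2
      · rw [Function.update_of_ne huw]
        exact hj.1.1 u (mem_erase.2 ⟨huw, hu⟩)
    · have huw : u ≠ w := fun h => hu (h ▸ hw)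
      rw [Function.update_of_ne huw]
      exact hj.1.2 u fun h => hu (mem_of_mem_erase h)
  · intro j _
    simp only [Function.update_idem, Function.update_eq_self]
  · rintro ⟨j, i⟩ hj
    rw [mem_product, mem_box] at hj
    have h0 : j w = 0 := hj.1.2 w (notMem_erase w σ)
    simp only [Function.update_idem, Function.update_self, Prod.mk.injEq, and_true]
    rw [← h0, Function.update_eq_self]
  · intro j _
    simp only [Function.update_idem, Function.update_eq_self]

theorem sum_tele (F : ℕ → ZMod 2) (N : ℕ) :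
    ∑ i ∈ range N, (F i + F (i + 1)) = F 0 + F N := by
  induction N with
  | zero =>
    rw [sum_range_zero]
    exact (ZModModule.add_self (F 0)).symm
  | succ N ih =>
    rw [sum_range_succ, ih]
    have h := ZModModule.add_self (F N)
    linear_combination h

/-- the telescoping sum over a box -/
theorem sum_box_tele {e : W → A} {O : SimpleGraph W}
    (hc : ∀ u w, O.Adj u w → e u * e w = e w * e u) {N : ℕ} {σ : Finset W}
    (hσ : O.IsClique (σ : Set W)) {w : W} (hw : w ∈ σ) (φ : A → ZMod 2) :
    ∑ j ∈ box N σ, (φ (PP e j) + φ (PP e j * e w)) =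
      ∑ j ∈ box N (σ.erase w), (φ (PP e j) + φ (PP e (Function.update j w N))) := by
  have hS : ∀ u ∈ σ, ∀ v ∈ σ, Commute (e u) (e v) := by
    intro u hu v hv
    by_cases huv : u = v
    · rw [huv]
    · exact hc u v (hσ hu hv huv)
  rw [sum_box hw]
  refine sum_congr rfl fun j hj => ?_
  rw [mem_box] at hj
  have h0 : j w = 0 := hj.2 w (notMem_erase w σ)
  have h1 : ∀ i, PP e (Function.update j w i) * e w = PP e (Function.update j w (i + 1)) := by
    intro i
    have h2 := PP_update (e := e) hS hw 1 (j := Function.update j w i) (fun u hu => by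
      have huw : u ≠ w := fun h => hu (h ▸ hw)
      rw [Function.update_of_ne huw]
      exact hj.2 u fun h => hu (mem_of_mem_erase h))
    rw [Function.update_idem, Function.update_self, pow_one] at h2
    exact h2.symm
  have h3 : ∑ i ∈ range N, (φ (PP e (Function.update j w i)) +
      φ (PP e (Function.update j w i) * e w)) =
      ∑ i ∈ range N, (φ (PP e (Function.update j w i)) +
      φ (PP e (Function.update j w (i + 1)))) := sum_congr rfl fun i _ => by rw [h1]
  rw [h3, sum_tele fun i => φ (PP e (Function.update j w i))]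
  have h4 : Function.update j w 0 = j := by
    rw [← h0, Function.update_eq_self]
  rw [h4]

/-- **The system of the sums over large boxes.** -/
theorem exists_sys (O : SimpleGraph W) (e : W → A)
    (hc : ∀ u w, O.Adj u w → e u * e w = e w * e u) (ex : W → A → ℤ)
    (hex : ∀ w g h, ex w (g * h) = ex w g + ex w h) (h1 : ∀ w, 0 < ex w (e w))
    (h2 : ∀ w u, u ≠ w → ex w (e u) ≤ 0) (h3 : ∀ w u, O.Adj w u → ex w (e u) = 0)
    {n : ℕ} {H : A → Finset W → A → Finset W → ZMod 2} (hH : Inter O e n H) :
    ∃ f : Finset W → Finset W → ZMod 2, f ∅ ∅ = 1 ∧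
      (∀ σ τ : Finset W, O.IsClique (σ : Set W) → O.IsClique (τ : Set W) → Disjoint σ τ →
        ∑ v ∈ σ, f (σ.erase v) τ + ∑ v ∈ τ, f σ (τ.erase v) = f σ τ + f τ σ) ∧
      ∀ σ τ : Finset W, O.IsClique (σ : Set W) → O.IsClique (τ : Set W) →
        n < σ.card + τ.card → f σ τ = 0 := by
  obtain ⟨E, hE⟩ := hH.fin
  -- the size of the boxes
  obtain ⟨N, hN⟩ : ∃ N : ℕ, ∀ w, ∀ g ∈ E, |ex w g| < (N : ℤ) := by
    refine ⟨(∑ w, ∑ g ∈ E, (ex w g).natAbs) + 1, fun w g hg => ?_⟩
    have h4 : (ex w g).natAbs ≤ ∑ g ∈ E, (ex w g).natAbs :=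
      single_le_sum (f := fun g => (ex w g).natAbs) (fun _ _ => Nat.zero_le _) hg
    have h5 : ∑ g ∈ E, (ex w g).natAbs ≤ ∑ w, ∑ g ∈ E, (ex w g).natAbs :=
      single_le_sum (f := fun w => ∑ g ∈ E, (ex w g).natAbs) (fun _ _ => Nat.zero_le _)
        (mem_univ w)
    have h6 : |ex w g| = ((ex w g).natAbs : ℤ) := (Int.natCast_natAbs _).symm
    rw [h6]
    exact_mod_cast Nat.lt_succ_of_le (h4.trans h5)
  have hex1 : ∀ w, ex w 1 = 0 := by
    intro w
    have := hex w 1 1
    rw [mul_one] at this
    omega
  have hexi : ∀ w g, ex w g⁻¹ = - ex w g := by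
    intro w g
    have := hex w g⁻¹ g
    rw [inv_mul_cancel, hex1] at this
    omega
  -- the exponents of the vertices
  have far : ∀ σ : Finset W, O.IsClique (σ : Set W) → ∀ w ∈ σ, ∀ j ∈ box N (σ.erase w),
      (N : ℤ) ≤ ex w (PP e (Function.update j w N)) := by
    intro σ hσ w hw j hj
    rw [mem_box] at hj
    rw [ex_PP (ex w) (hex w), sum_eq_single w]
    · rw [Function.update_self]
      have := h1 w
      nlinarith
    · intro u _ hu
      rw [Function.update_of_ne hu]
      by_cases huσ : u ∈ σ
      · rw [h3 w u (hσ hw huσ hu.symm), mul_zero]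
      · rw [hj.2 u fun h => huσ (mem_of_mem_erase h)]
        simp
    · intro h
      exact absurd (mem_univ w) h
  have near : ∀ τ : Finset W, ∀ w, w ∉ τ → ∀ j ∈ box N τ, ex w (PP e j) ≤ 0 := by
    intro τ w hw j hj
    rw [mem_box] at hj
    rw [ex_PP (ex w) (hex w)]
    refine sum_nonpos fun u _ => ?_
    by_cases huw : u = w
    · rw [huw, hj.2 w hw]
      simp
    · exact mul_nonpos_of_nonneg_of_nonpos (Int.natCast_nonneg _) (h2 w u huw)
  refine ⟨fun σ τ => ∑ j ∈ box N σ, ∑ j' ∈ box N τ, H (PP e j) σ (PP e j') τ, ?_, ?_, ?_⟩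
  · have h4 : box N (∅ : Finset W) = {fun _ => 0} := by
      ext j
      rw [mem_box, mem_singleton]
      constructor
      · rintro ⟨_, h⟩
        funext w
        exact h w (notMem_empty w)
      · rintro rfl
        exact ⟨fun w hw => absurd hw (notMem_empty w), fun _ _ => rfl⟩
    beta_reduce
    rw [h4, sum_singleton, sum_singleton, PP_zero]
    exact hH.one
  · intro σ τ hσ hτ hd
    beta_reduce
    have hcσ : ∀ w, O.IsClique ((σ.erase w : Finset W) : Set W) := fun w a ha b hb hab =>
      hσ (mem_of_mem_erase ha) (mem_of_mem_erase hb) hab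
    have hcτ : ∀ w, O.IsClique ((τ.erase w : Finset W) : Set W) := fun w a ha b hb hab =>
      hτ (mem_of_mem_erase ha) (mem_of_mem_erase hb) hab
    -- the first variable
    have e1 : ∀ w ∈ σ, ∑ j ∈ box N (σ.erase w), ∑ j' ∈ box N τ,
        H (PP e j) (σ.erase w) (PP e j') τ = ∑ j ∈ box N σ, ∑ j' ∈ box N τ,
          (H (PP e j) (σ.erase w) (PP e j') τ + H (PP e j * e w) (σ.erase w) (PP e j') τ) := by
      intro w hw
      rw [sum_comm, sum_comm (s := box N σ)]
      refine sum_congr rfl fun j' hj' => ?_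
      rw [sum_box_tele hc hσ hw fun g => H g (σ.erase w) (PP e j') τ]
      refine sum_congr rfl fun j hj => ?_
      have h5 : H (PP e (Function.update j w N)) (σ.erase w) (PP e j') τ = 0 := by
        by_contra hne
        have h6 := hN w _ (hE _ _ _ _ (hcσ w) hτ hne)
        rw [hex, hexi] at h6
        have h7 := far σ hσ w hw j hj
        have h8 := near τ w (disjoint_left.1 hd hw) j' hj'
        rw [abs_lt] at h6
        omega
      rw [h5, add_zero]
    -- the second variable
    have e2 : ∀ w ∈ τ, ∑ j ∈ box N σ, ∑ j' ∈ box N (τ.erase w),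
        H (PP e j) σ (PP e j') (τ.erase w) = ∑ j ∈ box N σ, ∑ j' ∈ box N τ,
          (H (PP e j) σ (PP e j') (τ.erase w) + H (PP e j) σ (PP e j' * e w) (τ.erase w)) := by
      intro w hw
      refine sum_congr rfl fun j hj => ?_
      rw [sum_box_tele hc hτ hw fun g => H (PP e j) σ g (τ.erase w)]
      refine sum_congr rfl fun j' hj' => ?_
      have h5 : H (PP e j) σ (PP e (Function.update j' w N)) (τ.erase w) = 0 := by
        by_contra hne
        have h6 := hN w _ (hE _ _ _ _ hσ (hcτ w) hne)
        rw [hex, hexi] at h6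
        have h7 := far τ hτ w hw j' hj'
        have h8 := near σ w (fun h => disjoint_left.1 hd h hw) j hj
        rw [abs_lt] at h6
        omega
      rw [h5, add_zero]
    rw [sum_congr rfl e1, sum_congr rfl e2]
    have e3 : ∑ j' ∈ box N τ, ∑ j ∈ box N σ, H (PP e j') τ (PP e j) σ =
        ∑ j ∈ box N σ, ∑ j' ∈ box N τ, H (PP e j') τ (PP e j) σ := sum_comm
    rw [e3, ← sum_add_distrib]
    rw [sum_comm (s := σ), sum_comm (s := τ), ← sum_add_distrib]
    refine sum_congr rfl fun j _ => ?_
    rw [sum_comm (s := σ), sum_comm (s := τ), ← sum_add_distrib, ← sum_add_distrib]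
    refine sum_congr rfl fun j' _ => ?_
    exact hH.rel _ _ _ _ hσ hτ
  · intro σ τ hσ hτ hcd
    refine sum_eq_zero fun j _ => sum_eq_zero fun j' _ => ?_
    exact hH.top _ _ _ _ hσ hτ hcd

end Pool.Agent.H65.RM
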