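import Pool.Agent.H85.VK.Order

/-!
# Project RM: from a system of numbers to the vanishing of the van Kampen obstruction
-/

set_option autoImplicit false

open Finset

namespace Pool.Agent.H65.RM

open Pool.Agent.H85.VK

/-- pairs of disjoint cliques -/
private def QQ {W : Type} [DecidableEq W] (O : SimpleGraph W) (σ ρ : Finset W) : Prop :=
  O.IsClique (σ : Set W) ∧ O.IsClique (ρ : Set W) ∧ Disjoint σ ρ

private theorem qq_erase {W : Type} [DecidableEq W] (O : SimpleGraph W) (σ ρ : Finset W)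
    (h : QQ O σ ρ) : (∀ v ∈ σ, QQ O (σ.erase v) ρ) ∧ ∀ v ∈ ρ, QQ O σ (ρ.erase v) :=
  ⟨fun v hv => ⟨h.1.subset (by exact_mod_cast erase_subset v σ), h.2.1,
    (disj_erase σ ρ h.2.2).1 v hv⟩,
    fun v hv => ⟨h.1, h.2.1.subset (by exact_mod_cast erase_subset v ρ),
    (disj_erase σ ρ h.2.2).2 v hv⟩⟩

private theorem qq_symm {W : Type} [DecidableEq W] {O : SimpleGraph W} {σ ρ : Finset W}
    (h : QQ O σ ρ) : QQ O ρ σ := ⟨h.2.1, h.1, h.2.2.symm⟩

private theorem step {W : Type} [DecidableEq W] (O : SimpleGraph W) {ν : W → ℕ}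
    (hν : Function.Injective ν) (f : Finset W → Finset W → ZMod 2)
    (hf : ∀ σ ρ : Finset W, QQ O σ ρ → dP f σ ρ = f σ ρ + f ρ σ)
    (m : ℕ) (h h' : Finset W → Finset W → ZMod 2)
    (hh : ∀ σ ρ : Finset W, QQ O σ ρ → σ.card + ρ.card = m →
      eP ν σ ρ + f σ ρ = dP h σ ρ + (h' σ ρ + h' ρ σ)) :
    ∃ h'' : Finset W → Finset W → ZMod 2, ∀ σ ρ : Finset W, QQ O σ ρ →
      σ.card + ρ.card = m + 1 → eP ν σ ρ + f σ ρ = dP h' σ ρ + (h'' σ ρ + h'' ρ σ) := by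
  classical
  let F : Finset W → Finset W → ZMod 2 := fun σ ρ => eP ν σ ρ + f σ ρ + dP h' σ ρ
  have hF : ∀ σ ρ : Finset W, QQ O σ ρ → σ.card + ρ.card = m + 1 → F σ ρ = F ρ σ := by
    intro σ ρ hd hc
    have h1 := dP_congr (Q := QQ O) (qq_erase O) hh σ ρ hd hc
    rw [dP_add, dP_add, dP_add, dP_dP, dP_sw h'] at h1
    have e1 : dP (fun a b => eP ν a b) σ ρ = eP ν σ ρ + eP ν ρ σ := dP_eP hν hd.2.2
    have e2 : dP (fun a b => f a b) σ ρ = f σ ρ + f ρ σ := hf σ ρ hd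
    rw [e1, e2] at h1
    apply zmod2_eq_of_add
    show eP ν σ ρ + f σ ρ + dP h' σ ρ + (eP ν ρ σ + f ρ σ + dP h' ρ σ) = 0
    have h2 : eP ν σ ρ + f σ ρ + dP h' σ ρ + (eP ν ρ σ + f ρ σ + dP h' ρ σ) =
        (eP ν σ ρ + eP ν ρ σ + (f σ ρ + f ρ σ)) + (dP h' σ ρ + dP h' ρ σ) := by ring
    rw [h2, h1, zero_add]
    exact zmod2_add_self _
  refine ⟨fun σ ρ => if WellOrderingRel σ ρ then F σ ρ else 0, fun σ ρ hd hc => ?_⟩
  have hne : σ ≠ ρ := by
    rintro rfl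
    have h1 : σ = ∅ := by
      rw [← Finset.disjoint_self_iff_empty]
      exact hd.2.2
    rw [h1] at hc
    simp at hc
  have key : (if WellOrderingRel σ ρ then F σ ρ else 0) +
      (if WellOrderingRel ρ σ then F ρ σ else 0) = F σ ρ := by
    rcases trichotomous_of (WellOrderingRel : Finset W → Finset W → Prop) σ ρ with h1 | h1 | h1
    · rw [if_pos h1, if_neg (asymm_of WellOrderingRel h1), add_zero]
    · exact absurd h1 hne
    · rw [if_pos h1, if_neg (asymm_of WellOrderingRel h1), zero_add, hF σ ρ hd hc]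
  simp only
  rw [key]
  show _ = dP h' σ ρ + (eP ν σ ρ + f σ ρ + dP h' σ ρ)
  have h3 := zmod2_add_self (dP h' σ ρ)
  linear_combination -h3

private theorem homotopy {W : Type} [DecidableEq W] (O : SimpleGraph W) {ν : W → ℕ}
    (hν : Function.Injective ν) (f : Finset W → Finset W → ZMod 2) (h0 : f ∅ ∅ = 1)
    (hf : ∀ σ ρ : Finset W, QQ O σ ρ → dP f σ ρ = f σ ρ + f ρ σ) (m : ℕ) :
    ∃ h h' : Finset W → Finset W → ZMod 2, ∀ σ ρ : Finset W, QQ O σ ρ →
      σ.card + ρ.card = m → eP ν σ ρ + f σ ρ = dP h σ ρ + (h' σ ρ + h' ρ σ) := by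
  induction m with
  | zero =>
    refine ⟨fun _ _ => 0, fun _ _ => 0, fun σ ρ _ hc => ?_⟩
    have h1 : σ = ∅ := card_eq_zero.1 (by omega)
    have h2 : ρ = ∅ := card_eq_zero.1 (by omega)
    subst h1 h2
    have h3 : eP ν ∅ ∅ = 1 := by
      unfold eP altF
      rw [union_empty, if_pos (altP_empty ν _ true)]
    rw [h3, h0]
    simp only [dP, sum_empty]
    decide
  | succ m ih =>
    obtain ⟨h, h', hh⟩ := ih
    obtain ⟨h'', hh''⟩ := step O hν f hf m h h' hh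
    exact ⟨h', h'', hh''⟩

/-- Compare `f` with `eP ν` (`eP_homotopy` for the difference, which vanishes on `(∅, ∅)`; `hf` is `dP_eP`). In the
total degree `2 k + 2` the function `f` is zero, so `eP ν = dP h + (1 + T) h'` and
`[Interlace] = (1 + T) eP ν = dP (h + T h)`. -/
theorem van_of_sys {W : Type} [DecidableEq W] [Finite W] (O : SimpleGraph W) (k : ℕ)
    (f : Finset W → Finset W → ZMod 2) (h0 : f ∅ ∅ = 1)
    (hf : ∀ σ τ : Finset W, O.IsClique (σ : Set W) → O.IsClique (τ : Set W) → Disjoint σ τ →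
      ∑ v ∈ σ, f (σ.erase v) τ + ∑ v ∈ τ, f σ (τ.erase v) = f σ τ + f τ σ)
    (hz : ∀ σ τ : Finset W, O.IsClique (σ : Set W) → O.IsClique (τ : Set W) → Disjoint σ τ →
      σ.card + τ.card = 2 * k + 2 → f σ τ = 0) : VanKampenZero O k := by
  classical
  obtain ⟨ν, hν⟩ := exists_injective_nat W
  obtain ⟨h, h', hh⟩ := homotopy O hν f h0 (fun σ ρ hq => hf σ ρ hq.1 hq.2.1 hq.2.2) (2 * k + 2)
  refine ⟨ν, hν, fun σ ρ => h σ ρ + h ρ σ, fun σ τ hσ h1 hτ h2 hd => ?_⟩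
  have hq : QQ O σ τ := ⟨hσ, hτ, hd⟩
  have hne : (σ ∪ τ).Nonempty := by
    rw [← card_pos, card_union_of_disjoint hd]
    omega
  rw [← eP_add_swap hν hd hne]
  have h3 := hh σ τ hq (by omega)
  have h4 := hh τ σ (qq_symm hq) (by omega)
  rw [hz σ τ hσ hτ hd (by omega)] at h3
  rw [hz τ σ hτ hσ hd.symm (by omega)] at h4
  have h5 : ∑ v ∈ τ, (h σ (τ.erase v) + h (τ.erase v) σ) +
      ∑ v ∈ σ, (h τ (σ.erase v) + h (σ.erase v) τ) = dP h σ τ + dP h τ σ := by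
    simp only [dP, sum_add_distrib]
    ring
  rw [h5]
  have h8 := zmod2_add_self (h' σ τ)
  have h9 := zmod2_add_self (h' τ σ)
  linear_combination h3 + h4 + h8 + h9

end Pool.Agent.H65.RM
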