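import Pool.Agent.H65.RM.Int
import Pool.Agent.H65.RM.Sys
import Pool.Agent.H65.RM.Sum
import Pool.Agent.H65.RA.Defs

/-!
# Project RM: the obstructor theorem

A group which contains the generators of a right-angled Artin group (recognised by exponent sums) and
acts properly on an acyclic homology manifold of dimension at most `2 k + 1`: the van Kampen
obstruction of the octahedralisation vanishes in dimension `2 k`.
-/

set_option autoImplicit false

open Finset

namespace Pool.Agent.H65.RM

open Pool.Agent.H37.TM Pool.Agent.H85.VK Pool.Agent.H65.RA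

/-- the general form -/
theorem van_of_act {A W U : Type} [Group A] [DecidableEq W] [Fintype W] [DecidableEq U]
    [MulAction A U] (O : SimpleGraph W) (e : W → A)
    (hc : ∀ u w, O.Adj u w → e u * e w = e w * e u) (ex : W → A → ℤ)
    (hex : ∀ w g h, ex w (g * h) = ex w g + ex w h) (h1 : ∀ w, 0 < ex w (e w))
    (h2 : ∀ w u, u ≠ w → ex w (e u) ≤ 0) (h3 : ∀ w u, O.Adj w u → ex w (e u) = 0)
    {K B : Set (Finset U)} {n k : ℕ} (hM : Mfd K B n) (hK : Acyc K) (hA : PAct A K B)
    (hn : n ≤ 2 * k + 1) : VanKampenZero O k := by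
  obtain ⟨H, hH⟩ := exists_inter O e hc hM hK hA
  obtain ⟨f, hf0, hf1, hf2⟩ := exists_sys O e hc ex hex h1 h2 h3 hH
  exact van_of_sys O k f hf0 hf1 fun σ τ hσ hτ _ hcd => hf2 σ τ hσ hτ (by omega)

/-- the form for the octahedralisation -/
theorem van_oct_of_act {A V U : Type} [Group A] [DecidableEq V] [Fintype V] [DecidableEq U]
    [MulAction A U] (G : SimpleGraph V) (a : V → A)
    (hc : ∀ u v, G.Adj u v → a u * a v = a v * a u) (ex : V → A → ℤ)
    (hex : ∀ v g h, ex v (g * h) = ex v g + ex v h)
    (h1 : ∀ v u, ex v (a u) = if u = v then 1 else 0)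
    {K B : Set (Finset U)} {n k : ℕ} (hM : Mfd K B n) (hK : Acyc K) (hA : PAct A K B)
    (hn : n ≤ 2 * k + 1) : VanKampenZero (oct G) k := by
  have hone : ∀ v, ex v 1 = 0 := by
    intro v
    have := hex v 1 1
    rw [mul_one] at this
    omega
  have hinv : ∀ v g, ex v g⁻¹ = - ex v g := by
    intro v g
    have := hex v g⁻¹ g
    rw [inv_mul_cancel, hone] at this
    omega
  refine van_of_act (oct G) (fun w => if w.2 then a w.1 else (a w.1)⁻¹) ?_
    (fun w g => if w.2 then ex w.1 g else - ex w.1 g) ?_ ?_ ?_ ?_ hM hK hA hn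
  · rintro ⟨u, b⟩ ⟨v, c⟩ h
    have h4 : Commute (a u) (a v) := hc u v h
    cases b <;> cases c
    · exact (h4.inv_inv).eq
    · exact (h4.inv_left).eq
    · exact (h4.inv_right).eq
    · exact h4.eq
  · rintro ⟨v, b⟩ g h
    cases b
    · simp only [Bool.false_eq_true, if_false]
      rw [hex]
      ring
    · simp only [if_true]
      exact hex v g h
  · rintro ⟨v, b⟩
    cases b
    · simp only [Bool.false_eq_true, if_false]
      rw [hinv, h1, if_pos rfl]
      omega
    · simp only [if_true]
      rw [h1, if_pos rfl]
      exact Int.one_pos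
  · rintro ⟨v, b⟩ ⟨u, c⟩ hne
    cases b <;> cases c
    · simp only [Bool.false_eq_true, if_false]
      rw [hinv, h1]
      have : u ≠ v := fun h => hne (by rw [h])
      rw [if_neg this]
      simp
    · simp only [Bool.false_eq_true, if_false, if_true]
      rw [h1]
      split_ifs <;> omega
    · simp only [Bool.false_eq_true, if_false, if_true]
      rw [hinv, h1]
      split_ifs <;> omega
    · simp only [if_true]
      rw [h1]
      have : u ≠ v := fun h => hne (by rw [h])
      rw [if_neg this]
  · rintro ⟨v, b⟩ ⟨u, c⟩ h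
    have hne : u ≠ v := fun h' => by
      subst h'
      exact G.loopless.irrefl u h
    cases b <;> cases c
    · simp only [Bool.false_eq_true, if_false]
      rw [hinv, h1, if_neg hne]
      simp
    · simp only [Bool.false_eq_true, if_false, if_true]
      rw [h1, if_neg hne]
      simp
    · simp only [Bool.false_eq_true, if_false, if_true]
      rw [hinv, h1, if_neg hne]
      simp
    · simp only [if_true]
      rw [h1, if_neg hne]

end Pool.Agent.H65.RM
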